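import Pool.Agent.H.MP_52010b_lc.B

namespace Pool.Agent.Results.MP_52010b_lc.MaxA

open Pool.Agent.Lib.CX Pool.Agent.H.MP_52010b_lc

theorem result : NPHard fun a : {I // Valid I} × ℕ => ∃ M, PStable a.1.1 M ∧ a.2 ≤ M.card := hardA

end Pool.Agent.Results.MP_52010b_lc.MaxA
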